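import Pool.Agent.H90.STK.Stmts3

/-!
# Board `stk2`, module TG2: the typical multiplicity of a family of tubes
-/

set_option autoImplicit false

namespace Pool.STK

open Finset Real MeasureTheory
open scoped RealInnerProductSpace ENNReal
open Pool.Agent.H49.Ent Pool.Agent.H32.Dense
open Pool.Agent.H53.Kak (E tube)
open Pool.Agent.H53.Dns (Mx psl slp)

namespace TG2

/-- A lower bound for the volume of a tube. -/
lemma le_volume_tube {d : ℕ} (hd : 1 ≤ d) (δ : ℝ) (hδ : 0 ≤ δ) (c e : E d) (he : ‖e‖ = 1) :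
    ENNReal.ofReal ((2 * (δ / d)) ^ d) ≤ volume (tube δ c e) := by
  classical
  have hd0 : (0 : ℝ) < d := by exact_mod_cast hd
  have hd1 : (1 : ℝ) ≤ d := by exact_mod_cast hd
  -- orthonormal basis with first vector e
  obtain ⟨b, hb⟩ : ∃ b : OrthonormalBasis (Fin (d + 1)) ℝ (E d), b 0 = e := by
    have h0 : Orthonormal ℝ (({0} : Set (Fin (d + 1))).domRestrict (fun _ : Fin (d + 1) => e)) := by
      constructor
      · intro i; exact he
      · intro i j hij
        exact absurd (Subtype.ext (i.2.trans j.2.symm)) hij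
    obtain ⟨b, hb⟩ := Orthonormal.exists_orthonormalBasis_extension_of_card_eq
      (𝕜 := ℝ) (E := E d) (ι := Fin (d + 1)) (by simp) h0
    exact ⟨b, hb 0 rfl⟩
  -- the coordinate map
  let T : E d → ℝ × (Fin d → ℝ) := fun x =>
    MeasurableEquiv.piFinSuccAbove (fun _ => ℝ) 0
      ((MeasurableEquiv.toLp 2 (Fin (d + 1) → ℝ)).symm (b.repr (x - c)))
  have hT : MeasurePreserving T volume volume := by
    have h1 : MeasurePreserving (fun x : E d => x - c) volume volume :=
      measurePreserving_sub_right volume c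
    have h2 := b.measurePreserving_repr
    have h3 := EuclideanSpace.volume_preserving_symm_measurableEquiv_toLp (Fin (d + 1))
    have h4 := volume_preserving_piFinSuccAbove (fun _ : Fin (d + 1) => ℝ) 0
    exact h4.comp (h3.comp (h2.comp h1))
  have hT1 : ∀ x, (T x).1 = ⟪x - c, e⟫ := by
    intro x
    have : (T x).1 = b.repr (x - c) 0 := rfl
    rw [this, b.repr_apply_apply, hb, real_inner_comm]
  have hT2 : ∀ x, ∀ i, (T x).2 i = b.repr (x - c) i.succ := by
    intro x i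
    rfl
  let B : Set (ℝ × (Fin d → ℝ)) := Set.Icc (-(1 / 2) : ℝ) (1 / 2) ×ˢ
    (Set.pi Set.univ (fun _ : Fin d => Set.Icc (-(δ / d)) (δ / d)))
  have hBm : MeasurableSet B :=
    measurableSet_Icc.prod (MeasurableSet.univ_pi fun _ => measurableSet_Icc)
  have hvB : volume B = ENNReal.ofReal ((2 * (δ / d)) ^ d) := by
    have h1 : volume B = volume (Set.Icc (-(1 / 2) : ℝ) (1 / 2)) *
        volume (Set.pi Set.univ (fun _ : Fin d => Set.Icc (-(δ / d)) (δ / d))) := by
      rw [Measure.volume_eq_prod]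
      exact Measure.prod_prod _ _
    rw [h1, volume_pi, Measure.pi_pi]
    simp only [Real.volume_Icc, Finset.prod_const, Finset.card_univ, Fintype.card_fin]
    rw [← ENNReal.ofReal_pow (by have : 0 ≤ δ / d := by positivity
                                 linarith)]
    rw [← ENNReal.ofReal_mul (by norm_num)]
    congr 1
    ring
  have hsub : T ⁻¹' B ⊆ tube δ c e := by
    intro x hx
    obtain ⟨h1, h2⟩ := hx
    rw [hT1] at h1
    refine ⟨abs_le.2 h1, ?_⟩
    have e0 : b.repr ((x - c) - ⟪x - c, e⟫ • e) 0 = 0 := by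
      rw [b.repr_apply_apply, hb, inner_sub_right, inner_smul_right, real_inner_self_eq_norm_sq,
        he, real_inner_comm]
      ring
    have e1 : ∀ i : Fin d, b.repr ((x - c) - ⟪x - c, e⟫ • e) i.succ = (T x).2 i := by
      intro i
      rw [hT2, map_sub, map_smul, ← hb]
      simp
    have e2 : ‖(x - c) - ⟪x - c, e⟫ • e‖ ^ 2 ≤ δ ^ 2 := by
      rw [← LinearIsometryEquiv.norm_map b.repr, EuclideanSpace.norm_sq_eq, Fin.sum_univ_succ, e0]
      simp only [e1]
      have h3 : ∀ i : Fin d, ‖(T x).2 i‖ ^ 2 ≤ (δ / d) ^ 2 := by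
        intro i
        have h4 := h2 i (Set.mem_univ i)
        rw [Real.norm_eq_abs]
        exact pow_le_pow_left₀ (abs_nonneg _) (abs_le.2 h4) 2
      calc ‖(0 : ℝ)‖ ^ 2 + ∑ i : Fin d, ‖(T x).2 i‖ ^ 2 ≤ 0 + ∑ _i : Fin d, (δ / d) ^ 2 := by
            refine add_le_add (by simp) (Finset.sum_le_sum fun i _ => h3 i)
        _ = δ ^ 2 / d := by
            rw [Finset.sum_const, Finset.card_univ, Fintype.card_fin, nsmul_eq_mul]
            field_simp
            ring
        _ ≤ δ ^ 2 := div_le_self (sq_nonneg _) hd1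
    exact (pow_le_pow_iff_left₀ (norm_nonneg _) hδ (by norm_num)).1 e2
  calc ENNReal.ofReal ((2 * (δ / d)) ^ d) = volume (T ⁻¹' B) := by
        rw [hT.measure_preimage hBm.nullMeasurableSet, hvB]
    _ ≤ volume (tube δ c e) := measure_mono hsub

lemma cov_restrict {d N : ℕ} {L δ : ℝ} {M1 M2 : ℕ} (h2 : 1 ≤ M2) {A : ℕ → ℕ} {c e : Fin N → E d}
    (h : CovM L δ (M1 * M2) A c e) : CovM L δ M1 (fun r => A (r * M2)) c e := by
  intro r hr hr1
  have h3 : 1 ≤ r * M2 := Nat.mul_pos hr h2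
  have h4 : r * M2 < M1 * M2 := Nat.mul_lt_mul_of_pos_right hr1 h2
  obtain ⟨h5, h6⟩ := h (r * M2) h3 h4
  refine ⟨h5, ?_⟩
  have h7 : (((r * M2 : ℕ) : ℝ) / ((M1 * M2 : ℕ) : ℝ)) = (r : ℝ) / (M1 : ℝ) := by
    have : (0 : ℝ) < M2 := by exact_mod_cast h2
    push_cast
    rw [mul_div_mul_right _ _ this.ne']
  rw [h7] at h6
  exact h6

lemma sum_restrict {M1 M2 : ℕ} (h2 : 1 ≤ M2) (f : ℕ → ℝ)
    (hf : ∀ r ∈ Finset.Ico 1 (M1 * M2), 0 ≤ f r) :
    ∑ r ∈ Finset.Ico 1 M1, f (r * M2) ≤ ∑ r ∈ Finset.Ico 1 (M1 * M2), f r := by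
  have hinj : Set.InjOn (fun r => r * M2) (Finset.Ico 1 M1 : Set ℕ) := by
    intro a _ b _ hab
    exact Nat.eq_of_mul_eq_mul_right h2 hab
  rw [← Finset.sum_image (f := f) hinj]
  refine Finset.sum_le_sum_of_subset_of_nonneg ?_ fun i hi _ => hf i hi
  intro x hx
  obtain ⟨r, hr, rfl⟩ := Finset.mem_image.1 hx
  rw [Finset.mem_Ico] at hr ⊢
  exact ⟨Nat.mul_pos hr.1 h2, Nat.mul_lt_mul_of_pos_right hr.2 h2⟩

lemma mlt_nonneg {d N : ℕ} (δ : ℝ) (c e : Fin N → E d) (x : E d) : 0 ≤ mlt δ c e x :=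
  Finset.sum_nonneg fun _ _ => Set.indicator_nonneg (fun _ _ => zero_le_one) _

lemma measurable_mlt {d N : ℕ} (δ : ℝ) (c e : Fin N → E d) : Measurable (mlt δ c e) := by
  unfold mlt
  exact Finset.measurable_sum _ fun i _ =>
    measurable_const.indicator (Pool.Agent.H53.Kak.measurableSet_tube δ (c i) (e i))

lemma lintegral_mlt {d N : ℕ} (δ : ℝ) (c e : Fin N → E d) (S : Set (E d)) :
    ∫⁻ x in S, ENNReal.ofReal (mlt δ c e x) = ∑ i, volume (tube δ (c i) (e i) ∩ S) := by
  have h1 : ∀ x, ENNReal.ofReal (mlt δ c e x) =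
      ∑ i, (tube δ (c i) (e i)).indicator (fun _ => (1 : ℝ≥0∞)) x := by
    intro x
    unfold mlt
    rw [ENNReal.ofReal_sum_of_nonneg fun _ _ => Set.indicator_nonneg (fun _ _ => zero_le_one) _]
    refine Finset.sum_congr rfl fun i _ => ?_
    by_cases hx : x ∈ tube δ (c i) (e i)
    · rw [Set.indicator_of_mem hx, Set.indicator_of_mem hx, ENNReal.ofReal_one]
    · rw [Set.indicator_of_notMem hx, Set.indicator_of_notMem hx, ENNReal.ofReal_zero]
  simp only [h1]
  rw [lintegral_finsetSum _ fun i _ =>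
    measurable_const.indicator (Pool.Agent.H53.Kak.measurableSet_tube δ (c i) (e i))]
  refine Finset.sum_congr rfl fun i _ => ?_
  rw [lintegral_indicator (Pool.Agent.H53.Kak.measurableSet_tube δ (c i) (e i)),
    lintegral_const, one_mul, Measure.restrict_apply MeasurableSet.univ, Set.univ_inter,
    Measure.restrict_apply (Pool.Agent.H53.Kak.measurableSet_tube δ (c i) (e i))]

end TG2

open TG2 in
/-- **TG2**. -/
theorem tg2_thm (hTF : TF2Stmt) (hTU : TU2Stmt) : TG2Stmt := by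
  intro d hd ε η L hε hη hL
  have hd0 : (0 : ℝ) < d := by exact_mod_cast hd
  have hd1 : (1 : ℝ) ≤ d := by exact_mod_cast hd
  obtain ⟨cd, hcd⟩ : ∃ cd : ℝ, cd = (2 / d) ^ d := ⟨_, rfl⟩
  have hcd0 : 0 < cd := by rw [hcd]; positivity
  have hcη : 0 < cd * η := mul_pos hcd0 hη
  obtain ⟨M1, hM1, K1, C1, hK1, hC1, hF⟩ := hTF d hd (ε * (cd * η)) L (by positivity) hL
  obtain ⟨M2, hM2, C2, hC2, hU⟩ := hTU d hd ε L hε hL
  obtain ⟨C3, hC3⟩ : ∃ C3 : ℝ, C3 = Real.exp ((C1 + 1) / (cd * η)) := ⟨_, rfl⟩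
  have hC30 : 0 < C3 := by rw [hC3]; exact Real.exp_pos _
  have h2d : (1 : ℝ) ≤ 2 ^ d := one_le_pow₀ (by norm_num)
  obtain ⟨C, hC⟩ : ∃ C : ℝ, C = max (C3 * 2 ^ d) C2 := ⟨_, rfl⟩
  have hCa : C3 * 2 ^ d ≤ C := by rw [hC]; exact le_max_left _ _
  have hCb : C2 ≤ C := by rw [hC]; exact le_max_right _ _
  have hCc : C3 ≤ C := le_trans (le_mul_of_one_le_right hC30.le h2d) hCa
  have hC0 : 0 < C := lt_of_lt_of_le hC2 hCb
  refine ⟨M1 * M2, Nat.mul_pos hM1 hM2, K1 / (cd * η), C, by positivity, hC0, ?_⟩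
  intro δ hδ hδ1 N c e hu hsep A hcov
  -- the product of the covering numbers
  have hA1 : ∀ r ∈ Finset.Ico 1 (M1 * M2), (1 : ℝ) ≤ A r := by
    intro r hr
    rw [Finset.mem_Ico] at hr
    exact_mod_cast (hcov r hr.1 hr.2).1
  obtain ⟨s, hs⟩ : ∃ s : ℝ, s = ∑ r ∈ Finset.Ico 1 (M1 * M2), Real.log (A r) := ⟨_, rfl⟩
  have hlog0 : ∀ r ∈ Finset.Ico 1 (M1 * M2), 0 ≤ Real.log (A r) := fun r hr =>
    Real.log_nonneg (hA1 r hr)
  have hs0 : 0 ≤ s := by rw [hs]; exact Finset.sum_nonneg hlog0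
  have hP : ∏ r ∈ Finset.Ico 1 (M1 * M2), (A r : ℝ) = Real.exp s := by
    rw [hs, Real.exp_sum]
    refine Finset.prod_congr rfl fun r hr => ?_
    rw [Real.exp_log (lt_of_lt_of_le one_pos (hA1 r hr))]
  rw [hP]
  -- the threshold
  have hlogδ : 0 < Real.log (1 / δ) := by
    apply Real.log_pos
    rw [one_div]
    exact (one_lt_inv₀ hδ).2 hδ1
  obtain ⟨a, ha⟩ : ∃ a : ℝ, a = (C1 + 1 + ε * (cd * η) * Real.log (1 / δ) + K1 * s) / (cd * η) :=
    ⟨_, rfl⟩
  have ha0 : 0 < a := by rw [ha]; positivity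
  obtain ⟨Λ, hΛ⟩ : ∃ Λ : ℝ, Λ = Real.exp a := ⟨_, rfl⟩
  have hΛ0 : 0 < Λ := by rw [hΛ]; exact Real.exp_pos _
  have hΛ1 : 1 ≤ Λ := by rw [hΛ]; exact Real.one_le_exp ha0.le
  have hΛe : Λ = C3 * δ ^ (-ε) * Real.exp s ^ (K1 / (cd * η)) := by
    rw [hΛ, hC3, Real.rpow_def_of_pos hδ, ← Real.exp_mul, ← Real.exp_add, ← Real.exp_add, ha,
      one_div, Real.log_inv]
    congr 1
    field_simp
  have hfac : 0 < δ ^ (-ε) * Real.exp s ^ (K1 / (cd * η)) := by positivity
  have hmm := measurable_mlt δ c e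
  have hGm : MeasurableSet {x : E d | mlt δ c e x ≤ Λ} := measurableSet_le hmm measurable_const
  refine ⟨{x | mlt δ c e x ≤ Λ}, hGm, ?_, ?_, ?_, ?_⟩
  · -- the Markov inequality
    have h1 := hF δ hδ hδ1 N c e hu hsep (fun r => A (r * M2)) (cov_restrict hM2 hcov)
    have h2 : ∑ r ∈ Finset.Ico 1 M1, Real.log ((A (r * M2) : ℕ) : ℝ) ≤ s := by
      rw [hs]
      exact sum_restrict hM2 (fun r => Real.log (A r)) hlog0
    have hNδ : 0 ≤ (N : ℝ) * δ ^ d := by positivity
    have h3 : ∫⁻ x : E d, ENNReal.ofReal (mlt δ c e x * Real.log (mlt δ c e x)) ≤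
        ENNReal.ofReal (a * (η * (cd * (N * δ ^ d)))) := by
      refine h1.trans (ENNReal.ofReal_le_ofReal ?_)
      have h4 : a * (η * (cd * (N * δ ^ d))) =
          (C1 + 1 + ε * (cd * η) * Real.log (1 / δ) + K1 * s) * (N * δ ^ d) := by
        rw [ha]
        field_simp
      rw [h4]
      refine mul_le_mul_of_nonneg_right ?_ hNδ
      have h5 := mul_le_mul_of_nonneg_left h2 hK1
      linarith
    have h6 : ENNReal.ofReal (cd * (N * δ ^ d)) ≤ ∑ i, volume (tube δ (c i) (e i)) := by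
      have h7 : ∀ i, ENNReal.ofReal (cd * δ ^ d) ≤ volume (tube δ (c i) (e i)) := by
        intro i
        have h8 := le_volume_tube hd δ hδ.le (c i) (e i) (hu i)
        have h9 : (2 * (δ / d)) ^ d = cd * δ ^ d := by
          rw [hcd, ← mul_pow]
          congr 1
          ring
        rw [h9] at h8
        exact h8
      calc ENNReal.ofReal (cd * (N * δ ^ d)) = ∑ _i : Fin N, ENNReal.ofReal (cd * δ ^ d) := by
            rw [Finset.sum_const, Finset.card_univ, Fintype.card_fin, nsmul_eq_mul,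
              ← ENNReal.ofReal_natCast, ← ENNReal.ofReal_mul (by positivity)]
            congr 1
            ring
        _ ≤ _ := Finset.sum_le_sum fun i _ => h7 i
    have h10 : ENNReal.ofReal a * ∑ i, volume (tube δ (c i) (e i) \ {x | mlt δ c e x ≤ Λ}) ≤
        ENNReal.ofReal (a * (η * (cd * (N * δ ^ d)))) := by
      have h11 : ∑ i, volume (tube δ (c i) (e i) \ {x | mlt δ c e x ≤ Λ}) =
          ∫⁻ x in {x | mlt δ c e x ≤ Λ}ᶜ, ENNReal.ofReal (mlt δ c e x) := by
        rw [lintegral_mlt]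
        rfl
      rw [h11, ← lintegral_const_mul _ hmm.ennreal_ofReal]
      refine le_trans ?_ ((setLIntegral_le_lintegral {x : E d | mlt δ c e x ≤ Λ}ᶜ _).trans h3)
      refine setLIntegral_mono' hGm.compl fun x hx => ?_
      rw [← ENNReal.ofReal_mul ha0.le]
      refine ENNReal.ofReal_le_ofReal ?_
      have h12 : Λ < mlt δ c e x := not_le.1 hx
      have h13 : a ≤ Real.log (mlt δ c e x) := by
        rw [Real.le_log_iff_exp_le (hΛ0.trans h12), ← hΛ]
        exact h12.le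
      rw [mul_comm]
      exact mul_le_mul_of_nonneg_left h13 (mlt_nonneg δ c e x)
    have ha1 : ENNReal.ofReal a ≠ 0 := (ENNReal.ofReal_pos.2 ha0).ne'
    refine (ENNReal.mul_le_mul_iff_right ha1 ENNReal.ofReal_ne_top).1 (h10.trans ?_)
    rw [ENNReal.ofReal_mul ha0.le, ENNReal.ofReal_mul hη.le]
    gcongr
  · intro x hx
    have h1 : mlt δ c e x ≤ Λ := hx
    refine h1.trans ?_
    rw [hΛe, mul_assoc, mul_assoc]
    exact mul_le_mul_of_nonneg_right hCc hfac.le
  · intro q hq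
    have hq1 : 1 < q := by
      have : 0 < 1 / (d : ℝ) := by positivity
      linarith
    have hq0 : 0 < q := by linarith
    have hqE : ENNReal.ofReal q ≠ 0 := (ENNReal.ofReal_pos.2 hq0).ne'
    rw [eLpNorm_eq_lintegral_rpow_enorm_toReal hqE ENNReal.ofReal_ne_top,
      ENNReal.toReal_ofReal hq0.le]
    have h1 : ∫⁻ x, ‖({x | mlt δ c e x ≤ Λ} : Set (E d)).indicator (mlt δ c e) x‖ₑ ^ q ≤
        ENNReal.ofReal (Λ ^ (q - 1) * (2 ^ d * (N * δ ^ d))) := by
      calc ∫⁻ x, ‖({x | mlt δ c e x ≤ Λ} : Set (E d)).indicator (mlt δ c e) x‖ₑ ^ q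
          ≤ ∫⁻ x, ENNReal.ofReal (Λ ^ (q - 1)) * ENNReal.ofReal (mlt δ c e x) := by
            refine lintegral_mono fun x => ?_
            by_cases hx : x ∈ ({x | mlt δ c e x ≤ Λ} : Set (E d))
            · rw [Set.indicator_of_mem hx]
              have h0 := mlt_nonneg δ c e x
              rw [Real.enorm_of_nonneg h0, ENNReal.ofReal_rpow_of_nonneg h0 hq0.le,
                ← ENNReal.ofReal_mul (by positivity)]
              refine ENNReal.ofReal_le_ofReal ?_
              rcases h0.eq_or_lt with h2 | h2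
              · rw [← h2, Real.zero_rpow hq0.ne', mul_zero]
              · have h3 : mlt δ c e x ^ q = mlt δ c e x ^ (q - 1) * mlt δ c e x := by
                  rw [← Real.rpow_add_one h2.ne']
                  congr 1
                  ring
                rw [h3]
                refine mul_le_mul_of_nonneg_right ?_ h0
                exact Real.rpow_le_rpow h0 hx (by linarith)
            · rw [Set.indicator_of_notMem hx, enorm_zero, ENNReal.zero_rpow_of_pos hq0]
              exact bot_le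
        _ = ENNReal.ofReal (Λ ^ (q - 1)) * ∑ i, volume (tube δ (c i) (e i)) := by
            rw [lintegral_const_mul _ hmm.ennreal_ofReal, ← setLIntegral_univ, lintegral_mlt]
            simp only [Set.inter_univ]
        _ ≤ ENNReal.ofReal (Λ ^ (q - 1)) * ∑ _i : Fin N, ENNReal.ofReal ((2 * δ) ^ d) := by
            gcongr with i
            exact Pool.Agent.H53.Kak.volume_tube_le δ hδ.le (c i) (e i) (hu i)
        _ = _ := by
            rw [Finset.sum_const, Finset.card_univ, Fintype.card_fin, nsmul_eq_mul,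
              ← ENNReal.ofReal_natCast, ← ENNReal.ofReal_mul (by positivity),
              ← ENNReal.ofReal_mul (by positivity)]
            congr 1
            rw [mul_pow]
            ring
    have h4 : (ENNReal.ofReal (Λ ^ (q - 1) * (2 ^ d * (N * δ ^ d)))) ^ (1 / q) =
        ENNReal.ofReal ((Λ ^ (q - 1) * (2 ^ d * (N * δ ^ d))) ^ (1 / q)) :=
      ENNReal.ofReal_rpow_of_nonneg (by positivity) (by positivity)
    refine (ENNReal.rpow_le_rpow h1 (by positivity)).trans ?_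
    rw [h4]
    refine ENNReal.ofReal_le_ofReal ?_
    have hN0 : (0 : ℝ) ≤ N := Nat.cast_nonneg N
    rw [Real.mul_rpow (by positivity) (by positivity), Real.mul_rpow (by positivity) (by positivity),
      Real.mul_rpow hN0 (by positivity), ← Real.rpow_mul hΛ0.le]
    have k1 : Λ ^ ((q - 1) * (1 / q)) ≤ Λ := by
      calc Λ ^ ((q - 1) * (1 / q)) ≤ Λ ^ (1 : ℝ) := by
            refine Real.rpow_le_rpow_of_exponent_le hΛ1 ?_
            rw [mul_one_div, div_le_one hq0]
            linarith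
        _ = Λ := Real.rpow_one Λ
    have hq2 : 1 / q ≤ 1 := by
      rw [div_le_one hq0]
      exact hq1.le
    have k2 : ((2 : ℝ) ^ d) ^ (1 / q) ≤ 2 ^ d := by
      calc ((2 : ℝ) ^ d) ^ (1 / q) ≤ ((2 : ℝ) ^ d) ^ (1 : ℝ) :=
            Real.rpow_le_rpow_of_exponent_le h2d hq2
        _ = 2 ^ d := Real.rpow_one _
    have k3 : (N : ℝ) ^ (1 / q) ≤ (N : ℝ) ^ (1 - 1 / (q * d)) := by
      rcases Nat.eq_zero_or_pos N with hN | hN
      · subst hN
        rw [Nat.cast_zero, Real.zero_rpow (by positivity)]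
        exact Real.rpow_nonneg le_rfl _
      · have hN1 : (1 : ℝ) ≤ N := by exact_mod_cast hN
        refine Real.rpow_le_rpow_of_exponent_le hN1 ?_
        have h5 : 1 / q + 1 / (q * d) = (1 + 1 / d) / q := by
          field_simp
        have h6 : (1 + 1 / (d : ℝ)) / q ≤ 1 := by
          rw [div_le_one hq0]
          exact hq
        linarith
    have k4 : (δ ^ d) ^ (1 / q) = δ ^ ((d : ℝ) / q) := by
      rw [← Real.rpow_natCast, ← Real.rpow_mul hδ.le]
      congr 1
      ring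
    rw [k4]
    calc Λ ^ ((q - 1) * (1 / q)) * (((2 : ℝ) ^ d) ^ (1 / q) * ((N : ℝ) ^ (1 / q) * δ ^ ((d : ℝ) / q)))
        ≤ Λ * (2 ^ d * ((N : ℝ) ^ (1 - 1 / (q * d)) * δ ^ ((d : ℝ) / q))) := by
          gcongr
      _ = (C3 * 2 ^ d) * (δ ^ (-ε) * Real.exp s ^ (K1 / (cd * η))) *
          (δ ^ ((d : ℝ) / q) * (N : ℝ) ^ (1 - 1 / (q * d))) := by
          rw [hΛe]
          ring
      _ ≤ C * (δ ^ (-ε) * Real.exp s ^ (K1 / (cd * η))) *
          (δ ^ ((d : ℝ) / q) * (N : ℝ) ^ (1 - 1 / (q * d))) := by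
          gcongr
      _ = _ := by ring
  · -- the union
    have h0 : CovM L δ (M2 * M1) A c e := by
      rw [mul_comm]
      exact hcov
    have h1 := hU δ hδ hδ1 N c e hu hsep (fun r => A (r * M1)) (cov_restrict hM1 h0)
    refine le_trans (ENNReal.ofReal_le_ofReal ?_) h1
    have h2 : ∏ r ∈ Finset.Ico 1 M2, ((A (r * M1) : ℕ) : ℝ) ≤ Real.exp s := by
      have h3 : ∀ r ∈ Finset.Ico 1 M2, (1 : ℝ) ≤ ((A (r * M1) : ℕ) : ℝ) := by
        intro r hr
        rw [Finset.mem_Ico] at hr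
        apply hA1
        rw [Finset.mem_Ico, mul_comm M1]
        exact ⟨Nat.mul_pos hr.1 hM1, Nat.mul_lt_mul_of_pos_right hr.2 hM1⟩
      have h4 : ∏ r ∈ Finset.Ico 1 M2, ((A (r * M1) : ℕ) : ℝ) =
          Real.exp (∑ r ∈ Finset.Ico 1 M2, Real.log ((A (r * M1) : ℕ) : ℝ)) := by
        rw [Real.exp_sum]
        refine Finset.prod_congr rfl fun r hr => ?_
        rw [Real.exp_log (lt_of_lt_of_le one_pos (h3 r hr))]
      rw [h4]
      apply Real.exp_le_exp.2
      rw [hs, mul_comm M1]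
      refine sum_restrict hM1 (fun r => Real.log (A r)) fun r hr => hlog0 r ?_
      rw [mul_comm M1]
      exact hr
    have h5 : 0 < ∏ r ∈ Finset.Ico 1 M2, ((A (r * M1) : ℕ) : ℝ) := by
      refine Finset.prod_pos fun r hr => ?_
      rw [Finset.mem_Ico] at hr
      refine lt_of_lt_of_le one_pos (hA1 _ ?_)
      rw [Finset.mem_Ico, mul_comm M1]
      exact ⟨Nat.mul_pos hr.1 hM1, Nat.mul_lt_mul_of_pos_right hr.2 hM1⟩
    gcongr

end Pool.STK
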